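import Mathlib
import Pool.Agent.W837.GB.Defs

/-! CAPS and RND -/

set_option autoImplicit false

namespace Pool.Agent.W407.GB

open Pool.Agent.W837.GB
open scoped Matrix ComplexOrder Pointwise

lemma det_conj {m : ℕ} (U B : Matrix (Fin m) (Fin m) ℂ) :
    (U * B * Uᴴ).det.re = ‖U.det‖ ^ 2 * B.det.re := by
  rw [Matrix.det_mul, Matrix.det_mul, Matrix.det_conjTranspose]
  have e : U.det * B.det * star U.det = ((‖U.det‖ ^ 2 : ℝ) : ℂ) * B.det := by
    have : U.det * star U.det = ((‖U.det‖ ^ 2 : ℝ) : ℂ) := by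
      rw [Complex.star_def, Complex.mul_conj, Complex.normSq_eq_norm_sq]
    rw [← this]; ring
  rw [e, Complex.re_ofReal_mul]

lemma eta_conj {n m : ℕ} (a : Fin n → Matrix (Fin m) (Fin m) ℂ)
    (U V b : Matrix (Fin m) (Fin m) ℂ) :
    eta (fun j => U * a j * V) b = U * eta a (V * b * Vᴴ) * Uᴴ := by
  unfold eta
  rw [Matrix.mul_sum, Matrix.sum_mul]
  refine Finset.sum_congr rfl fun j _ => ?_
  simp only [Matrix.conjTranspose_mul, Matrix.mul_assoc]

lemma posDef_conj {m : ℕ} {V b : Matrix (Fin m) (Fin m) ℂ} (hV : V.det ≠ 0) (hb : b.PosDef) :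
    (V * b * Vᴴ).PosDef := by
  have hU : IsUnit V := (Matrix.isUnit_iff_isUnit_det V).2 (isUnit_iff_ne_zero.2 hV)
  exact hb.mul_mul_conjTranspose_same (Matrix.vecMul_injective_of_isUnit hU)

theorem caps : S_CAPS := by
  intro n m a U V hU hV
  set k : ℝ := ‖U.det‖ ^ 2 * ‖V.det‖ ^ 2 with hk
  have hU2 : (0 : ℝ) < ‖U.det‖ ^ 2 := by positivity
  have hV2 : (0 : ℝ) < ‖V.det‖ ^ 2 := by positivity
  have hk0 : 0 ≤ k := by positivity
  have key : ∀ b : Matrix (Fin m) (Fin m) ℂ,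
      (eta (fun j => U * a j * V) b).det.re / b.det.re =
        k * ((eta a (V * b * Vᴴ)).det.re / (V * b * Vᴴ).det.re) := by
    intro b
    rw [eta_conj, det_conj, det_conj, hk]
    by_cases hb : b.det.re = 0
    · simp [hb]
    · field_simp
  have hset : {c : ℝ | ∃ b : Matrix (Fin m) (Fin m) ℂ, b.PosDef ∧
      c = (eta (fun j => U * a j * V) b).det.re / b.det.re} =
      k • {c : ℝ | ∃ b : Matrix (Fin m) (Fin m) ℂ, b.PosDef ∧
        c = (eta a b).det.re / b.det.re} := by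
    ext c
    rw [Set.mem_smul_set]
    constructor
    · rintro ⟨b, hb, rfl⟩
      refine ⟨_, ⟨V * b * Vᴴ, posDef_conj hV hb, rfl⟩, ?_⟩
      rw [key b, smul_eq_mul]
    · rintro ⟨_, ⟨b, hb, rfl⟩, rfl⟩
      have hVd : IsUnit V.det := isUnit_iff_ne_zero.2 hV
      have hVi : V * V⁻¹ = 1 := Matrix.mul_nonsing_inv V hVd
      have hV' : (V⁻¹).det ≠ 0 := by
        rw [Matrix.det_nonsing_inv]
        simpa using hV
      have e : V * (V⁻¹ * b * (V⁻¹)ᴴ) * Vᴴ = b := by
        have h2 : (V⁻¹)ᴴ * Vᴴ = 1 := by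
          rw [← Matrix.conjTranspose_mul, hVi, Matrix.conjTranspose_one]
        calc V * (V⁻¹ * b * (V⁻¹)ᴴ) * Vᴴ = (V * V⁻¹) * b * ((V⁻¹)ᴴ * Vᴴ) := by
              simp only [Matrix.mul_assoc]
          _ = b := by rw [hVi, h2, Matrix.one_mul, Matrix.mul_one]
      refine ⟨V⁻¹ * b * (V⁻¹)ᴴ, posDef_conj hV' hb, ?_⟩
      rw [key, e, smul_eq_mul]
  unfold cap
  rw [hset, Real.sInf_smul_of_nonneg hk0, smul_eq_mul]

theorem rnd : S_RND := by
  intro n m a h T
  classical
  set d := Module.finrank ℂ T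
  let v := Module.finBasis ℂ T
  let V : Matrix (Fin m) (Fin (Module.finrank ℂ T)) ℂ := fun i k => (v k : Fin m → ℂ) i
  have hrange : LinearMap.range V.mulVecLin = T := by
    rw [Matrix.range_mulVecLin]
    have e1 : (Set.range V.col) = (T.subtype) '' (Set.range v) := by
      rw [← Set.range_comp]
      rfl
    rw [e1, ← Submodule.map_span, v.span_eq, Submodule.map_top, Submodule.range_subtype]
  have hps : (V * Vᴴ).PosSemidef := Matrix.posSemidef_self_mul_conjTranspose V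
  have h1 := h (V * Vᴴ) hps
  rw [Matrix.rank_self_mul_conjTranspose] at h1
  have h2 : V.rank = Module.finrank ℂ T := by
    unfold Matrix.rank
    rw [hrange]
  rw [h2] at h1
  refine h1.trans ?_
  unfold Matrix.rank
  refine Submodule.finrank_mono ?_
  rintro _ ⟨w, rfl⟩
  have e : (eta a (V * Vᴴ)).mulVecLin w = ∑ j, (a j).mulVecLin (V.mulVecLin ((Vᴴ * (a j)ᴴ).mulVecLin w)) := by
    unfold eta
    simp only [Matrix.mulVecLin_apply, Matrix.mulVec_mulVec]
    rw [Matrix.sum_mulVec]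
    refine Finset.sum_congr rfl fun j _ => ?_
    simp only [Matrix.mul_assoc]
  rw [e]
  refine Submodule.sum_mem _ fun j _ => ?_
  unfold imS
  refine Submodule.mem_iSup_of_mem j ?_
  refine Submodule.mem_map_of_mem ?_
  have hm : V.mulVecLin ((Vᴴ * (a j)ᴴ).mulVecLin w) ∈ LinearMap.range V.mulVecLin :=
    LinearMap.mem_range_self _ _
  exact hrange.le hm

end Pool.Agent.W407.GB
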